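import Pool.Agent.H91.RD.Basic

/-!
# MP_609556_an, module CONE
-/

open MeasureTheory Set Filter Topology Metric
open Pool.Agent.H29.TF (hk P)

namespace Pool.Agent.H15.RD

open Pool.Agent.H91.RD

/-- choice of the small parameter -/
theorem cone_eps (m b s0 : ℝ) (h : 4 * m * s0 ^ 2 < b ^ 2) :
    ∃ ε : ℝ, 0 < ε ∧ ε < 1 ∧ 4 * m * (s0 + ε) ^ 2 < (1 - ε) ^ 3 * b ^ 2 := by
  have hc : Continuous fun ε : ℝ => (1 - ε) ^ 3 * b ^ 2 - 4 * m * (s0 + ε) ^ 2 := by fun_prop
  have h0 : 0 < (1 - (0 : ℝ)) ^ 3 * b ^ 2 - 4 * m * (s0 + 0) ^ 2 := by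
    simp only [sub_zero, one_pow, one_mul, add_zero]; linarith
  have h1 : ∀ᶠ ε in 𝓝 (0 : ℝ), 0 < (1 - ε) ^ 3 * b ^ 2 - 4 * m * (s0 + ε) ^ 2 :=
    (hc.tendsto 0).eventually (lt_mem_nhds h0)
  rw [Metric.eventually_nhds_iff] at h1
  obtain ⟨r, hr, h1⟩ := h1
  refine ⟨min (r / 2) (1 / 2), by positivity, by
    exact lt_of_le_of_lt (min_le_right _ _) (by norm_num), ?_⟩
  have h2 := h1 (y := min (r / 2) (1 / 2)) (by
    rw [dist_zero_right, Real.norm_of_nonneg (by positivity)]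
    exact lt_of_le_of_lt (min_le_left _ _) (by linarith))
  linarith

/-- the final numerical choice -/
theorem cone_T (A B κ δ : ℝ) (hB : 0 < B) (hκ : 0 < κ) (hδ : 0 < δ) :
    ∃ T > 0, ∀ t ≥ T, B * Real.exp (-(κ * t) + A) ≤ δ := by
  have h1 : Tendsto (fun t : ℝ => B * Real.exp (-(κ * t) + A)) atTop (𝓝 (B * 0)) := by
    apply Tendsto.const_mul
    apply Real.tendsto_exp_atBot.comp
    apply tendsto_atBot_add_const_right
    exact tendsto_neg_atTop_atBot.comp (Tendsto.const_mul_atTop hκ tendsto_id)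
  rw [mul_zero] at h1
  have h2 := (h1.eventually (gt_mem_nhds hδ)).and (eventually_gt_atTop 0)
  obtain ⟨T, hT⟩ := eventually_atTop.1 h2
  exact ⟨T, (hT T le_rfl).2, fun t ht => (hT t ht).1.le⟩

theorem cone (hODD : T_ODD) (hTAIL : T_TAIL) (hGEO2 : T_GEO2) : T_CONE := by
  intro N f K m U u hf hm hfm hC hS b s0 L δ hb hs0 hs1 hms hL hδ
  obtain ⟨ε, hε0, hε1, hε⟩ := cone_eps m b s0 hms
  obtain ⟨R, hR, hC⟩ := hC ε hε0
  set ρ : ℝ := (1 - ε) * b / (s0 + ε) with hρ
  set A : ℝ := L / (s0 + ε) + 2 * L with hA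
  have hse : 0 < s0 + ε := by linarith
  have h1e : 0 < 1 - ε := by linarith
  have hρ0 : 0 < ρ := by rw [hρ]; positivity
  have hA0 : 0 < A := by rw [hA]; positivity
  set κ : ℝ := (1 - ε) * ρ ^ 2 / 4 - m with hκ
  have hκ0 : 0 < κ := by
    rw [hκ, sub_pos, lt_div_iff₀ (by norm_num : (0 : ℝ) < 4), hρ, div_pow, mul_div_assoc',
      lt_div_iff₀ (by positivity)]
    calc m * 4 * (s0 + ε) ^ 2 = 4 * m * (s0 + ε) ^ 2 := by ring
      _ < (1 - ε) ^ 3 * b ^ 2 := hε
      _ = (1 - ε) * ((1 - ε) * b) ^ 2 := by ring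
  set B : ℝ := ε ^ (-(N : ℝ) / 2) with hB
  have hB0 : 0 < B := Real.rpow_pos_of_pos hε0 _
  obtain ⟨T1, hT1, hT⟩ := cone_T ((1 - ε) * ρ * A / 2) B κ δ hB0 hκ0 hδ
  refine ⟨max T1 (max (R / b) (A / ρ)), lt_of_lt_of_le hT1 (le_max_left _ _), ?_⟩
  intro t ht x ξ e hD hbt x' h hx' hh hhe
  have htT1 : T1 ≤ t := (le_max_left _ _).trans ht
  have htR : R / b ≤ t := ((le_max_left _ _).trans (le_max_right _ _)).trans ht
  have htA : A / ρ ≤ t := ((le_max_right _ _).trans (le_max_right _ _)).trans ht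
  have ht0 : 0 < t := lt_of_lt_of_le hT1 htT1
  by_cases hh0 : h = 0
  · rw [hh0, add_zero]; linarith
  have hhn : 0 < ‖h‖ := norm_pos_iff.2 hh0
  set e' : E N := ‖h‖⁻¹ • h with he'
  have he'n : ‖e'‖ = 1 := by
    rw [he', norm_smul, norm_inv, norm_norm, inv_mul_cancel₀ hhn.ne']
  have hhe' : ‖h‖ • e' = h := by
    rw [he', smul_smul, mul_inv_cancel₀ hhn.ne', one_smul]
  have hα : √(1 - s0 ^ 2) ≤ inner ℝ e e' := by
    rw [he', inner_smul_right, real_inner_comm, inv_mul_eq_div, le_div_iff₀ hhn]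
    exact hhe
  set bb : ℝ := inner ℝ x' e' + ‖h‖ / 2 with hbb
  have hrfl : rfl1 e' bb x' = x' + h := by
    unfold rfl1
    have : 2 * (inner ℝ x' e' - bb) = -‖h‖ := by rw [hbb]; ring
    rw [this, neg_smul, hhe', sub_neg_eq_add]
  have h1 := hODD N f K m 0 t (lift0 U u) e' bb hf ht0 hfm hS.mild hS.rng he'n x'
    (by rw [hbb]; linarith)
  rw [hrfl, lift0_pos ht0, lift0_nonpos le_rfl, sub_zero] at h1
  set g : E N → ℝ := {y | bb < inner ℝ y e'}.indicator (chi U) with hg
  set r : ℝ := ρ * t - A with hr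
  have hr0 : 0 ≤ r := by
    rw [hr, sub_nonneg]
    rwa [div_le_iff₀' hρ0] at htA
  have hgm : AEStronglyMeasurable g volume := by
    have h2 : Measurable (chi U) := by
      unfold chi
      exact measurable_const.indicator hS.meas
    have h3 : MeasurableSet {y : E N | bb < inner ℝ y e'} := by
      apply measurableSet_lt measurable_const
      fun_prop
    exact (h2.indicator h3).aestronglyMeasurable
  have hg01 : ∀ y, 0 ≤ g y ∧ g y ≤ 1 := by
    intro y
    by_cases hy : y ∈ {y : E N | bb < inner ℝ y e'}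
    · rw [hg, indicator_of_mem hy]
      exact ⟨chi_nonneg U y, chi_le_one U y⟩
    · rw [hg, indicator_of_notMem hy]
      exact ⟨le_rfl, zero_le_one⟩
  have hgr : ∀ y, dist (x' + h) y < r → g y = 0 := by
    intro y hy
    by_contra hne
    have hy1 : bb < inner ℝ y e' := by
      by_contra hlt
      exact hne (indicator_of_notMem (by exact hlt) _)
    have hyU : y ∈ U := by
      by_contra hyU
      apply hne
      rw [hg, indicator_of_mem (by exact hy1), chi_notMem hyU]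
    set d : ℝ := infDist x U with hd
    set v : E N := y - x with hv
    have hv1 : -L ≤ inner ℝ v e' := by
      have h2 : inner ℝ v e' = inner ℝ y e' - inner ℝ x' e' + inner ℝ (x' - x) e' := by
        rw [hv, inner_sub_left, inner_sub_left]; ring
      have h3 : -(‖x' - x‖ * ‖e'‖) ≤ inner ℝ (x' - x) e' :=
        (abs_le.1 (abs_real_inner_le_norm _ _)).1
      rw [he'n, mul_one] at h3
      have h4 : ‖h‖ / 2 > 0 := by positivity
      rw [h2]; linarith
    have hdR : R ≤ d := by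
      have : R ≤ b * t := by rwa [div_le_iff₀' hb] at htR
      linarith
    have h5 := hC x hdR ξ hD.mem hD.near y hyU
    have h6 : y - ξ = v + d • e := by
      rw [hv, ← hD.eq]; abel
    have h7 : ‖x - ξ‖ = d := by rw [← dist_eq_norm]; exact hD.near
    have hd0 : 0 < d := hD.pos
    rw [h7, hD.eq, inner_smul_left, h6] at h5
    simp only [conj_trivial] at h5
    have h8 : inner ℝ e (v + d • e) ≤ ε * ‖v + d • e‖ := by
      have : d * inner ℝ e (v + d • e) ≤ d * (ε * ‖v + d • e‖) := by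
        calc d * inner ℝ e (v + d • e) ≤ ε * d * ‖v + d • e‖ := h5
          _ = d * (ε * ‖v + d • e‖) := by ring
      exact le_of_mul_le_mul_left this hd0
    have h9 : ‖v + d • e‖ ≤ ‖v‖ + d := by
      refine (norm_add_le _ _).trans ?_
      rw [norm_smul, hD.unit, mul_one, Real.norm_of_nonneg hd0.le]
    have h10 : inner ℝ e (v + d • e) = inner ℝ v e + d := by
      rw [inner_add_right, inner_smul_right, real_inner_self_eq_norm_sq, hD.unit,
        real_inner_comm]
      ring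
    have h11 : inner ℝ v e ≤ ε * (‖v‖ + d) - d := by
      rw [h10] at h8
      have := mul_le_mul_of_nonneg_left h9 hε0.le
      linarith
    have h12 := hGEO2 N e e' v d L ε s0 hD.unit he'n hL.le hs0.le hs1.le hα hv1 h11
    have h13 : (1 - ε) * (b * t) - L ≤ (s0 + ε) * ‖v‖ := by
      have := mul_le_mul_of_nonneg_left hbt h1e.le
      linarith
    have h14 : ρ * t - L / (s0 + ε) ≤ ‖v‖ := by
      have : ρ * t - L / (s0 + ε) = ((1 - ε) * (b * t) - L) / (s0 + ε) := by
        rw [hρ]; field_simp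
      rw [this, div_le_iff₀' hse]
      exact h13
    have h15 : ‖v‖ ≤ dist (x' + h) y + 2 * L := by
      have e1 : v = (y - (x' + h)) + (x' - x) + h := by rw [hv]; abel
      have e2 : ‖v‖ ≤ ‖y - (x' + h)‖ + ‖x' - x‖ + ‖h‖ := by
        rw [e1]; exact norm_add₃_le
      rw [dist_comm, dist_eq_norm]
      linarith
    have : r ≤ dist (x' + h) y := by rw [hr, hA]; linarith
    linarith
  have h2 := hTAIL N ε t r hε0 hε1 ht0 hr0 (x' + h) g hgm hg01 hgr
  have h3 : (1 - ε) * r ^ 2 / (4 * t) ≥ (m + κ) * t - (1 - ε) * ρ * A / 2 := by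
    rw [ge_iff_le, le_div_iff₀ (by positivity)]
    have e1 : (m + κ) = (1 - ε) * ρ ^ 2 / 4 := by rw [hκ]; ring
    rw [e1, hr]
    have e2 : (1 - ε) * (ρ * t - A) ^ 2 -
      ((1 - ε) * ρ ^ 2 / 4 * t - (1 - ε) * ρ * A / 2) * (4 * t) = (1 - ε) * A ^ 2 := by ring
    have e3 : 0 ≤ (1 - ε) * A ^ 2 := by positivity
    linarith
  have h4 : Real.exp (m * t) * P t g (x' + h) ≤
      B * Real.exp (-(κ * t) + (1 - ε) * ρ * A / 2) := by
    calc Real.exp (m * t) * P t g (x' + h)
        ≤ Real.exp (m * t) * (B * Real.exp (-((1 - ε) * r ^ 2 / (4 * t)))) :=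
          mul_le_mul_of_nonneg_left h2 (Real.exp_pos _).le
      _ = B * Real.exp (m * t + -((1 - ε) * r ^ 2 / (4 * t))) := by
          rw [Real.exp_add]; ring
      _ ≤ B * Real.exp (-(κ * t) + (1 - ε) * ρ * A / 2) := by
          apply mul_le_mul_of_nonneg_left _ hB0.le
          apply Real.exp_le_exp.2
          linarith
  have h5 := hT t htT1
  linarith

end Pool.Agent.H15.RD
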