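import Pool.Agent.H91.RD.Targets

/-!
# MP_609556_an, module GEO2
-/

open MeasureTheory Set Filter Topology Metric

namespace Pool.Agent.H15.RD

open Pool.Agent.H91.RD

theorem geo2 : T_GEO2 := by
  intro N e e' v d L ε s0 he he' hL hs0 hs1 hα hv hve
  set α : ℝ := inner ℝ e e' with hαd
  have hα0 : 0 ≤ α := le_trans (Real.sqrt_nonneg _) hα
  have hα1 : α ≤ 1 := by
    have := real_inner_le_norm e e'
    rw [he, he'] at this
    linarith
  have hs2 : 0 ≤ 1 - s0 ^ 2 := by nlinarith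
  have hα2 : 1 - s0 ^ 2 ≤ α ^ 2 := by
    have h1 : √(1 - s0 ^ 2) ^ 2 = 1 - s0 ^ 2 := Real.sq_sqrt hs2
    have h0 : 0 ≤ √(1 - s0 ^ 2) := Real.sqrt_nonneg _
    nlinarith
  set g : E N := e - α • e' with hg
  have hgn : ‖g‖ ^ 2 ≤ s0 ^ 2 := by
    have h1 : ‖g‖ ^ 2 = 1 - α ^ 2 := by
      rw [hg, norm_sub_sq_real, inner_smul_right, norm_smul, he, he', ← hαd,
        Real.norm_of_nonneg hα0]
      ring
    rw [h1]; linarith
  have hgn' : ‖g‖ ≤ s0 := by
    exact (pow_le_pow_iff_left₀ (norm_nonneg g) hs0 (by norm_num)).1 hgn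
  have he2 : e = α • e' + g := by rw [hg]; abel
  have h1 : inner ℝ v e = α * inner ℝ v e' + inner ℝ v g := by
    rw [he2, inner_add_right, inner_smul_right]
  have h2 : -(‖v‖ * ‖g‖) ≤ inner ℝ v g := by
    have := abs_real_inner_le_norm v g
    exact (abs_le.1 this).1
  have h3 : ‖v‖ * ‖g‖ ≤ ‖v‖ * s0 := mul_le_mul_of_nonneg_left hgn' (norm_nonneg v)
  have h4 : -L ≤ α * inner ℝ v e' := by
    by_cases hp : 0 ≤ (inner ℝ v e' : ℝ)
    · have : 0 ≤ α * inner ℝ v e' := mul_nonneg hα0 hp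
      linarith
    · push_neg at hp
      nlinarith
  have h5 : -L - s0 * ‖v‖ ≤ inner ℝ v e := by
    rw [h1]; nlinarith
  nlinarith

end Pool.Agent.H15.RD
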