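import Pool.Agent.H91.RD.Basic

/-!
# MP_609556_an, module ODEI
-/

open MeasureTheory Set Filter Topology Metric
open Pool.Agent.H29.TF (hk P)

namespace Pool.Agent.H15.RD

open Pool.Agent.H91.RD

/-- the explicit subsolution `β(τ) = θ' + m₀ τ` -/
theorem odei_beta (f : ℝ → ℝ) (hf : Continuous f) (θ' q : ℝ) (h1 : θ' < 1)
    (hpos : ∀ s, θ' ≤ s → s < 1 → 0 < f s) (hq : q < 1) :
    ∃ m0 S : ℝ, 0 ≤ m0 ∧ 0 < S ∧ q ≤ θ' + m0 * S ∧
      ∀ τ, 0 ≤ τ → τ ≤ S → θ' + m0 * τ < 1 ∧ m0 ≤ f (θ' + m0 * τ) := by
  by_cases h : θ' < q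
  · have hne : (Icc θ' q).Nonempty := nonempty_Icc.2 h.le
    obtain ⟨s0, hs0, hmin⟩ := isCompact_Icc.exists_isMinOn hne hf.continuousOn
    have hm : 0 < f s0 := hpos s0 hs0.1 (lt_of_le_of_lt hs0.2 hq)
    refine ⟨f s0, (q - θ') / f s0, hm.le, div_pos (by linarith) hm, ?_, ?_⟩
    · rw [mul_div_cancel₀ _ hm.ne']; linarith
    · intro τ h0 h2
      have h3 : f s0 * τ ≤ q - θ' := by
        have := mul_le_mul_of_nonneg_left h2 hm.le
        rwa [mul_div_cancel₀ _ hm.ne'] at this
      have h4 : 0 ≤ f s0 * τ := mul_nonneg hm.le h0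
      refine ⟨by linarith, ?_⟩
      exact hmin ⟨by linarith, by linarith⟩
  · refine ⟨0, 1, le_rfl, one_pos, by linarith, ?_⟩
    intro τ _ _
    rw [zero_mul, add_zero]
    exact ⟨h1, (hpos θ' le_rfl h1).le⟩

/-- interval integrability of the Duhamel integrand -/
theorem duh_integrable {N : ℕ} {f : ℝ → ℝ} {K a : ℝ} {w : ℝ → E N → ℝ} (hf : Lip f K)
    (hw : Mild f a w) (hr : Rng a w) {t r : ℝ} (ht : a < t) (hr0 : 0 ≤ r) (x : E N) :
    IntervalIntegrable (fun q => P (r - q) (fun y => f (w (t + q) y)) x) volume 0 r := by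
  rw [intervalIntegrable_iff_integrableOn_Ioc_of_le hr0]
  have hm : AEStronglyMeasurable (fun q => P (r - q) (fun y => f (w (t + q) y)) x)
      (volume.restrict (Ioc 0 r)) := by
    unfold P
    have h1 : AEStronglyMeasurable (fun p : ℝ × E N => hk (r - p.1) (x - p.2) * f (w (t + p.1) p.2))
        ((volume.restrict (Ioc 0 r)).prod volume) := by
      apply AEStronglyMeasurable.mul
      · apply Measurable.aestronglyMeasurable
        exact Pool.Agent.H29.TF.measurable_hk_uncurry.comp
          ((measurable_const.sub measurable_fst).prodMk (measurable_const.sub measurable_snd))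
      · have h2 : ContinuousOn (fun p : ℝ × E N => f (w (t + p.1) p.2)) (Ioc 0 r ×ˢ univ) := by
          apply hf.continuous.comp_continuousOn
          have h3 : ContinuousOn (fun p : ℝ × E N => ((t + p.1, p.2) : ℝ × E N))
              (Ioc 0 r ×ˢ univ) := by fun_prop
          refine (hw.cont.comp h3 ?_)
          rintro ⟨q, y⟩ ⟨hq, _⟩
          refine ⟨?_, mem_univ _⟩
          have := hq.1
          simp only [mem_Ioi] at this ⊢
          linarith
        have h4 := h2.aestronglyMeasurable (μ := (volume : Measure (ℝ × E N)))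
          (measurableSet_Ioc.prod MeasurableSet.univ)
        rw [Measure.volume_eq_prod, ← Measure.prod_restrict, Measure.restrict_univ] at h4
        exact h4
    exact h1.integral_prod_right'
  refine Integrable.mono' (g := fun _ => K) (integrableOn_const (by simp)) hm ?_
  · rw [ae_restrict_iff' measurableSet_Ioc]
    have hne : ∀ᵐ q : ℝ, q ≠ r := by
      rw [ae_iff]; simp
    filter_upwards [hne] with q hqr hq
    have hq' : 0 < r - q := by
      have := lt_of_le_of_ne hq.2 hqr
      linarith
    rw [Real.norm_eq_abs]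
    apply Pool.Agent.H29.TF.abs_P_le hq'
    intro y
    have h5 := hr (t + q) (by have := hq.1; linarith) y
    calc |f (w (t + q) y)| ≤ K * |w (t + q) y| := hf.abs_le _
      _ ≤ K * 1 := by
          apply mul_le_mul_of_nonneg_left _ hf.K0.le
          rw [abs_of_nonneg h5.1]; exact h5.2
      _ = K := mul_one K

theorem odei (hGC : T_GC) (hTAIL : T_TAIL) : T_ODEI := by
  intro N f K θ' η R hf hθ0 hθ1 hpos hη0 hη1 hR
  obtain ⟨m0, S, hm0, hS, hqS, hβ⟩ := odei_beta f hf.continuous θ' (1 - η / 2) hθ1 hpos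
    (by linarith)
  set B : ℝ := (1 / 2 : ℝ) ^ (-(N : ℝ) / 2) with hB
  have hB0 : 0 < B := Real.rpow_pos_of_pos (by norm_num) _
  set X : ℝ := Real.log (Real.exp (K * S) * B / (η / 2)) with hX
  set r : ℝ := 8 * S * |X| + 1 with hr
  have hr1 : 1 ≤ r := by
    have : 0 ≤ 8 * S * |X| := by positivity
    linarith
  have hXr : X ≤ (1 - 1 / 2) * r ^ 2 / (4 * S) := by
    have h1 : |X| ≤ (1 - 1 / 2) * r ^ 2 / (4 * S) := by
      rw [le_div_iff₀ (by positivity)]
      nlinarith
    exact (le_abs_self X).trans h1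
  have hfin : Real.exp (K * S) * (B * Real.exp (-((1 - 1 / 2) * r ^ 2 / (4 * S)))) ≤ η / 2 := by
    have h1 : Real.exp (-((1 - 1 / 2) * r ^ 2 / (4 * S))) ≤ Real.exp (-X) :=
      Real.exp_le_exp.2 (by linarith)
    have h2 : Real.exp (-X) = (η / 2) / (Real.exp (K * S) * B) := by
      rw [Real.exp_neg, hX, Real.exp_log (by positivity), inv_div]
    calc Real.exp (K * S) * (B * Real.exp (-((1 - 1 / 2) * r ^ 2 / (4 * S))))
        = (Real.exp (K * S) * B) * Real.exp (-((1 - 1 / 2) * r ^ 2 / (4 * S))) := by ring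
      _ ≤ (Real.exp (K * S) * B) * ((η / 2) / (Real.exp (K * S) * B)) := by
          rw [← h2]; exact mul_le_mul_of_nonneg_left h1 (by positivity)
      _ = η / 2 := by field_simp
  refine ⟨R + r, S, by linarith, hS, ?_⟩
  intro a w hw hrng t ht x0 hx0 x hx
  have hwc : Continuous (w t) := by
    rw [continuous_iff_continuousAt]
    intro y
    have h1 : ContinuousAt (fun p : ℝ × E N => w p.1 p.2) (t, y) :=
      hw.cont.continuousAt ((isOpen_Ioi.prod isOpen_univ).mem_nhds ⟨ht, mem_univ _⟩)
    exact ContinuousAt.comp (f := fun y : E N => ((t, y) : ℝ × E N))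
      (g := fun p : ℝ × E N => w p.1 p.2) h1 (by fun_prop)
  set z : ℝ → E N → ℝ := fun τ y => θ' + m0 * τ - w (t + τ) y with hz
  set h : ℝ → E N → ℝ := fun τ y => m0 - f (w (t + τ) y) with hh
  have hwr : ∀ τ ≥ 0, ∀ y, 0 ≤ w (t + τ) y ∧ w (t + τ) y ≤ 1 := fun τ hτ y =>
    hrng (t + τ) (by linarith) y
  have hfw : ∀ τ ≥ 0, ∀ y, |f (w (t + τ) y)| ≤ K := by
    intro τ hτ y
    have h5 := hwr τ hτ y
    calc |f (w (t + τ) y)| ≤ K * |w (t + τ) y| := hf.abs_le _
      _ ≤ K * 1 := by
          apply mul_le_mul_of_nonneg_left _ hf.K0.le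
          rw [abs_of_nonneg h5.1]; exact h5.2
      _ = K := mul_one K
  have hK0 := hf.K0
  have hbz : ∀ τ ∈ Icc 0 S, ∀ y, |z τ y| ≤ 1 + m0 + K := by
    intro τ hτ y
    have h1 := hwr τ hτ.1 y
    have h2 := hβ τ hτ.1 hτ.2
    have h3 : 0 ≤ m0 * τ := mul_nonneg hm0 hτ.1
    rw [hz]; simp only
    rw [abs_le]
    constructor <;> linarith
  have hbh : ∀ τ ∈ Icc 0 S, ∀ y, |h τ y| ≤ 1 + m0 + K := by
    intro τ hτ y
    have h1 := abs_le.1 (hfw τ hτ.1 y)
    rw [hh]; simp only
    rw [abs_le]
    constructor <;> linarith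
  have hcw : ContinuousOn (fun p : ℝ × E N => w (t + p.1) p.2) (Ioc 0 S ×ˢ univ) := by
    have h3 : ContinuousOn (fun p : ℝ × E N => ((t + p.1, p.2) : ℝ × E N))
        (Ioc 0 S ×ˢ univ) := by fun_prop
    refine (hw.cont.comp h3 ?_)
    rintro ⟨q, y⟩ ⟨hq, _⟩
    refine ⟨?_, mem_univ _⟩
    have := hq.1
    simp only [mem_Ioi] at this ⊢
    linarith
  have hcz : ContinuousOn (fun p : ℝ × E N => z p.1 p.2) (Ioc 0 S ×ˢ univ) := by
    have h3 : ContinuousOn (fun p : ℝ × E N => θ' + m0 * p.1) (Ioc 0 S ×ˢ univ) := by fun_prop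
    exact h3.sub hcw
  have hch : ContinuousOn (fun p : ℝ × E N => h p.1 p.2) (Ioc 0 S ×ˢ univ) :=
    continuousOn_const.sub (hf.continuous.comp_continuousOn hcw)
  have hzm : Measurable (z 0) := by
    have : z 0 = fun y => θ' - w t y := by
      ext y; rw [hz]; simp
    rw [this]
    exact (continuous_const.sub hwc).measurable
  have hduh : ∀ τ ∈ Ioc 0 S, ∀ y, z τ y = P (τ - 0) (z 0) y +
      ∫ q in (0 : ℝ)..τ, P (τ - q) (h q) y := by
    intro τ hτ y
    have hτ0 : 0 < τ := hτ.1
    have h1 := hw.duh t (t + τ) ht.le (by linarith) y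
    have h2 : ∫ q in t..(t + τ), P (t + τ - q) (fun y => f (w q y)) y =
        ∫ q in (0 : ℝ)..τ, P (τ - q) (fun y => f (w (t + q) y)) y := by
      have := intervalIntegral.integral_comp_add_left
        (fun q => P (t + τ - q) (fun y => f (w q y)) y) t (a := 0) (b := τ)
      rw [add_zero] at this
      rw [← this]
      congr 1
      ext q
      congr 1
      ring
    have h3 : P τ (z 0) y = θ' - P τ (w t) y := by
      have e1 : z 0 = fun y => (fun _ : E N => θ') y - w t y := by
        ext y; rw [hz]; simp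
      have hi2 : Integrable (fun y' => hk τ (y - y') * w t y') :=
        Pool.Agent.H29.TF.integrable_hk_mul hτ0 hwc.aestronglyMeasurable (C := 1) (fun y' => by
          have := hwr 0 le_rfl y'
          rw [add_zero] at this
          rw [abs_of_nonneg this.1]; exact this.2) y
      have hi1 : Integrable (fun y' => hk τ (y - y') * (fun _ : E N => θ') y') :=
        (Pool.Agent.H29.TF.integrable_hk_sub hτ0 y).mul_const θ'
      rw [e1, Pool.Agent.H29.TF.P_sub y hi1 hi2, Pool.Agent.H29.TF.P_const hτ0]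
    have h4 : ∫ q in (0 : ℝ)..τ, P (τ - q) (h q) y =
        m0 * τ - ∫ q in (0 : ℝ)..τ, P (τ - q) (fun y => f (w (t + q) y)) y := by
      have e0 := duh_integrable hf hw hrng ht hτ0.le y
      have e1 : ∫ q in (0 : ℝ)..τ, P (τ - q) (h q) y =
          ∫ q in (0 : ℝ)..τ, (m0 - P (τ - q) (fun y => f (w (t + q) y)) y) := by
        apply intervalIntegral.integral_congr_ae
        have hne : ∀ᵐ q : ℝ, q ≠ τ := by
          rw [ae_iff]; simp
        filter_upwards [hne] with q hqr hq
        rw [uIoc_of_le hτ0.le] at hq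
        have hq' : 0 < τ - q := by
          have := lt_of_le_of_ne hq.2 hqr
          linarith
        have hcq : Continuous (fun y' : E N => f (w (t + q) y')) := by
          apply hf.continuous.comp
          rw [continuous_iff_continuousAt]
          intro y'
          have h1 : ContinuousAt (fun p : ℝ × E N => w p.1 p.2) (t + q, y') :=
            hw.cont.continuousAt ((isOpen_Ioi.prod isOpen_univ).mem_nhds
              ⟨by have := hq.1; simp only [mem_Ioi]; linarith, mem_univ _⟩)
          exact ContinuousAt.comp (f := fun y : E N => ((t + q, y) : ℝ × E N))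
            (g := fun p : ℝ × E N => w p.1 p.2) h1 (by fun_prop)
        have hi2 : Integrable (fun y' => hk (τ - q) (y - y') * f (w (t + q) y')) :=
          Pool.Agent.H29.TF.integrable_hk_mul hq' hcq.aestronglyMeasurable (C := K)
            (fun y' => hfw q hq.1.le y') y
        have hi1 : Integrable (fun y' => hk (τ - q) (y - y') * (fun _ : E N => m0) y') :=
          (Pool.Agent.H29.TF.integrable_hk_sub hq' y).mul_const m0
        have e2 : h q = fun y' => (fun _ : E N => m0) y' - f (w (t + q) y') := by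
          ext y'; rw [hh]
        rw [e2, Pool.Agent.H29.TF.P_sub y hi1 hi2, Pool.Agent.H29.TF.P_const hq']
      rw [e1, intervalIntegral.integral_sub intervalIntegrable_const e0,
        intervalIntegral.integral_const]
      simp only [sub_zero, smul_eq_mul]
      ring
    rw [sub_zero, h3, h4]
    rw [hz]; simp only
    rw [h1, h2]
    have : t + τ - t = τ := by ring
    rw [this]
    ring
  have hkey1 : ∀ τ ∈ Ioc 0 S, ∀ y, h τ y ≤ K * |z τ y| := by
    intro τ hτ y
    have h1 := (hβ τ hτ.1.le hτ.2).2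
    have h2 := (abs_le.1 (hf.lip (θ' + m0 * τ) (w (t + τ) y))).2
    rw [hh, hz]; simp only
    linarith
  have hres := hGC N K K (1 + m0 + K) 0 S z h hK0.le hS hzm hbz hbh hcz hch hduh
    (fun τ hτ y hpos => by
      have := hkey1 τ hτ y
      rwa [abs_of_pos hpos] at this)
    (fun τ hτ y hneg => by
      have := hkey1 τ hτ y
      rw [abs_of_nonpos hneg] at this
      linarith) x
  rw [sub_zero] at hres
  have htail := hTAIL N (1 / 2) S r (by norm_num) (by norm_num) hS (by linarith) x
    (fun y => max (z 0 y) 0) ((hzm.max measurable_const).aestronglyMeasurable)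
    (fun y => by
      refine ⟨le_max_right _ _, max_le ?_ zero_le_one⟩
      have := hwr 0 le_rfl y
      rw [hz]; simp only
      linarith)
    (fun y hy => by
      have hy2 : y ∈ closedBall x0 (R + r) := by
        rw [mem_closedBall] at hx ⊢
        have := dist_triangle y x x0
        rw [dist_comm y x] at this
        linarith
      have := hx0 y hy2
      apply max_eq_right
      rw [hz]; simp only [mul_zero, add_zero]
      linarith)
  have h6 : z S x ≤ η / 2 := by
    refine hres.trans ?_
    refine (mul_le_mul_of_nonneg_left htail (Real.exp_pos _).le).trans ?_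
    exact hfin
  have h7 : z S x = θ' + m0 * S - w (t + S) x := by rw [hz]
  rw [h7] at h6
  linarith

end Pool.Agent.H15.RD
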